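import Mathlib
import Pool.Agent.X26.LF.Stm

/-! Part `LF_STG` of project LF: one stage of the construction, `S_STG`. -/

set_option autoImplicit false

namespace Pool.Agent.X25.LF

open Finset Pool.Agent.X26.LF

/-- deletion of the bad indices keeps `Free` -/
lemma free_union {m N : ℕ} (v : Fin m → ℤ) (p : ℕ) (A X : Finset (ZMod p)) (x : Fin N → ZMod p)
    (hA : Free v p A) (hX : ∀ y ∈ X, ∃ i, ¬ Bad v p A x i ∧ x i = y) : Free v p (A ∪ X) := by
  classical
  intro K a ha hsum
  set L : Finset (Fin m) := K.filter fun k => a k ∉ A with hL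
  set K' : Finset (Fin m) := K.filter fun k => a k ∈ A with hK'
  by_cases hne : L.Nonempty
  · have h1 : ∀ k : Fin m, k ∈ L → ∃ i, ¬ Bad v p A x i ∧ x i = a k := by
      intro k hk
      rw [hL, Finset.mem_filter] at hk
      have h2 := ha k hk.1
      rw [Finset.mem_union] at h2
      rcases h2 with h2 | h2
      · exact absurd h2 hk.2
      · exact hX _ h2
    obtain ⟨k0, hk0⟩ := hne
    have : Nonempty (Fin N) := ⟨(h1 k0 hk0).choose⟩
    choose! κ hκ using h1
    refine (hκ k0 hk0).1 ⟨K', L, a, κ, ?_, ?_, ⟨k0, hk0, rfl⟩, ?_⟩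
    · rw [Finset.disjoint_left]
      intro k hk1 hk2
      rw [hK', Finset.mem_filter] at hk1
      rw [hL, Finset.mem_filter] at hk2
      exact hk2.2 hk1.2
    · intro k hk
      rw [hK', Finset.mem_filter] at hk
      exact hk.2
    · have h3 : ∑ k ∈ L, (v k : ZMod p) * x (κ k) = ∑ k ∈ L, (v k : ZMod p) * a k :=
        Finset.sum_congr rfl fun k hk => by rw [(hκ k hk).2]
      rw [h3, hK', hL, Finset.sum_filter_add_sum_filter_not]
      exact hsum
  · refine hA K a ?_ hsum
    intro i hi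
    by_contra hcon
    exact hne ⟨i, by rw [hL, Finset.mem_filter]; exact ⟨hi, hcon⟩⟩

open Classical in
theorem t_STG : S_STG := by
  intro hSM hBAD hCNT m p N _ u v A U hm hNP hA hN hsz
  -- good embeddings
  set Good : (Fin N → ZMod p) → ZMod p → Prop := fun x s =>
    ∃ ι : Fin m ↪ Fin N, ∑ j, (u j : ZMod p) * x (ι j) = s ∧ ∀ j, ¬ Bad v p A x (ι j) with hGood
  have hs : ∀ s : ZMod p, 4 * (univ.filter fun x : Fin N → ZMod p => ¬ Good x s).card ≤ p ^ N := by
    intro s
    have h1 := hSM m p N (fun j => (u j : ZMod p)) s hm hNP.1 hN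
    have h2 := hBAD hCNT m p N u v A s hm hNP hA
    have h3 : (univ.filter fun x : Fin N → ZMod p => ¬ Good x s) ⊆
        (univ.filter fun x : Fin N → ZMod p => ¬ ∃ ι : Fin m ↪ Fin N, ∑ j, (u j : ZMod p) * x (ι j) = s) ∪
        (univ.filter fun x : Fin N → ZMod p => ∃ ι : Fin m ↪ Fin N,
          ∑ j, (u j : ZMod p) * x (ι j) = s ∧ ∃ j, Bad v p A x (ι j)) := by
      intro x hx
      rw [Finset.mem_filter] at hx
      rw [Finset.mem_union, Finset.mem_filter, Finset.mem_filter]
      by_cases hex : ∃ ι : Fin m ↪ Fin N, ∑ j, (u j : ZMod p) * x (ι j) = s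
      · right
        obtain ⟨ι, hι⟩ := hex
        refine ⟨Finset.mem_univ _, ι, hι, ?_⟩
        by_contra hcon
        push Not at hcon
        exact hx.2 ⟨ι, hι, hcon⟩
      · left
        exact ⟨Finset.mem_univ _, hex⟩
    have h4 := (Finset.card_le_card h3).trans (Finset.card_union_le _ _)
    have hp : 0 < p ^ 2 := pow_pos (Fact.out : p.Prime).pos 2
    have h5 : 8 * (univ.filter fun x : Fin N → ZMod p => ∃ ι : Fin m ↪ Fin N,
          ∑ j, (u j : ZMod p) * x (ι j) = s ∧ ∃ j, Bad v p A x (ι j)).card ≤ p ^ N := by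
      refine Nat.le_of_mul_le_mul_left ?_ hp
      calc p ^ 2 * (8 * (univ.filter fun x : Fin N → ZMod p => ∃ ι : Fin m ↪ Fin N,
            ∑ j, (u j : ZMod p) * x (ι j) = s ∧ ∃ j, Bad v p A x (ι j)).card)
          = 8 * (p ^ 2 * (univ.filter fun x : Fin N → ZMod p => ∃ ι : Fin m ↪ Fin N,
            ∑ j, (u j : ZMod p) * x (ι j) = s ∧ ∃ j, Bad v p A x (ι j)).card) := by ring
        _ ≤ 8 * (m ^ 2 * 4 ^ m * (A.card + N) ^ (2 * m - 1) * p ^ N) := Nat.mul_le_mul_left _ h2
        _ = (8 * (m ^ 2 * 4 ^ m * (A.card + N) ^ (2 * m - 1))) * p ^ N := by ring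
        _ ≤ p ^ 2 * p ^ N := Nat.mul_le_mul_right _ hsz
    omega
  -- averaging
  obtain ⟨x, -, hx⟩ : ∃ x ∈ (univ : Finset (Fin N → ZMod p)),
      4 * (U.filter fun s => ¬ Good x s).card ≤ U.card := by
    refine Finset.exists_le_of_sum_le ⟨0, Finset.mem_univ _⟩ ?_
    have e1 : ∑ x : Fin N → ZMod p, 4 * (U.filter fun s => ¬ Good x s).card =
        ∑ s ∈ U, 4 * (univ.filter fun x : Fin N → ZMod p => ¬ Good x s).card := by
      simp only [Finset.card_filter, ← Finset.mul_sum]
      rw [Finset.sum_comm]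
    have e2 : (univ : Finset (Fin N → ZMod p)).card = p ^ N := by
      rw [Finset.card_univ, Fintype.card_fun, ZMod.card, Fintype.card_fin]
    rw [e1, Finset.sum_const, e2]
    calc ∑ s ∈ U, 4 * (univ.filter fun x : Fin N → ZMod p => ¬ Good x s).card ≤ ∑ s ∈ U, p ^ N :=
          Finset.sum_le_sum fun s _ => hs s
      _ = p ^ N • U.card := by rw [Finset.sum_const, smul_eq_mul, smul_eq_mul, mul_comm]
  refine ⟨(univ.filter fun i : Fin N => ¬ Bad v p A x i).image x, ?_, ?_, ?_⟩
  · refine Finset.card_image_le.trans ((Finset.card_le_univ _).trans ?_)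
    rw [Fintype.card_fin]
  · refine free_union v p A _ x hA ?_
    intro y hy
    rw [Finset.mem_image] at hy
    obtain ⟨i, hi, hiy⟩ := hy
    rw [Finset.mem_filter] at hi
    exact ⟨i, hi.2, hiy⟩
  · have h6 : (U.filter fun s => ¬ Cov u p ((univ.filter fun i : Fin N => ¬ Bad v p A x i).image x) s) ⊆
        (U.filter fun s => ¬ Good x s) := by
      intro s hs'
      rw [Finset.mem_filter] at hs' ⊢
      refine ⟨hs'.1, fun hg => hs'.2 ?_⟩
      obtain ⟨ι, hι, hb⟩ := hg
      refine ⟨fun j => x (ι j), fun j => ?_, hι⟩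
      rw [Finset.mem_image]
      exact ⟨ι j, by rw [Finset.mem_filter]; exact ⟨Finset.mem_univ _, hb j⟩, rfl⟩
    have h7 := Finset.card_le_card h6
    omega

end Pool.Agent.X25.LF
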